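import Mathlib

/-!
# c.o. spaces: the counting argument in hereditarily Lindelöf spaces
-/

open Set Topology

namespace Pool.U19.CoHL

universe u

/-- A nonempty countable compact Hausdorff space does not contain two disjoint copies of
itself. -/
theorem no_two_copies {F : Type u} [TopologicalSpace F] [CompactSpace F] [T2Space F]
    [Nonempty F] [Countable F] (a b : F → F) (ha : Continuous a) (hb : Continuous b)
    (ia : Function.Injective a) (ib : Function.Injective b)
    (hd : ∀ x y, a x ≠ b y) : False := by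
  classical
  let st : Bool → F → F := fun i => if i = true then a else b
  have hst : ∀ i, Continuous (st i) := by
    intro i; cases i
    · exact hb
    · exact ha
  have ist : ∀ i, Function.Injective (st i) := by
    intro i; cases i
    · exact ib
    · exact ia
  have dst : ∀ i j, i ≠ j → ∀ x y, st i x ≠ st j y := by
    intro i j hij x y
    cases i <;> cases j
    · exact absurd rfl hij
    · exact fun h => hd y x h.symm
    · exact hd x y
    · exact absurd rfl hij
  let c : (ℕ → Bool) → ℕ → F → F := fun x n => Nat.rec id (fun n g => g ∘ st (x n)) n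
  have hcs : ∀ x n, c x (n+1) = c x n ∘ st (x n) := fun x n => rfl
  have cont : ∀ x n, Continuous (c x n) := by
    intro x n
    induction n with
    | zero => exact continuous_id
    | succ n ih => rw [hcs]; exact ih.comp (hst _)
  have inj : ∀ x n, Function.Injective (c x n) := by
    intro x n
    induction n with
    | zero => exact fun _ _ h => h
    | succ n ih => rw [hcs]; exact ih.comp (ist _)
  have hne : ∀ x, (⋂ n, range (c x n)).Nonempty := by
    intro x
    apply IsCompact.nonempty_iInter_of_sequence_nonempty_isCompact_isClosed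
    · intro n; rw [hcs]; exact range_comp_subset_range _ _
    · intro n; exact range_nonempty _
    · exact isCompact_range (cont x 0)
    · intro n; exact (isCompact_range (cont x n)).isClosed
  choose f hf using hne
  have finj : Function.Injective f := by
    intro x y hxy
    by_contra hne
    have hex : ∃ n, x n ≠ y n := Function.ne_iff.mp hne
    have hn : x (Nat.find hex) ≠ y (Nat.find hex) := Nat.find_spec hex
    have hlt : ∀ m < Nat.find hex, x m = y m := fun m hm => not_not.mp (Nat.find_min hex hm)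
    generalize Nat.find hex = n at hn hlt
    have heq : ∀ m ≤ n, c x m = c y m := by
      intro m
      induction m with
      | zero => intro _; rfl
      | succ m ih => intro hm; rw [hcs, hcs, ih (by omega), hlt m (by omega)]
    obtain ⟨u, hu⟩ := mem_iInter.mp (hf x) (n+1)
    obtain ⟨v, hv⟩ := mem_iInter.mp (hf y) (n+1)
    rw [hcs, heq n le_rfl] at hu
    rw [hcs] at hv
    exact dst _ _ hn u v ((inj y n) (hu.trans (hxy.trans hv.symm)))
  haveI : Countable (ℕ → Bool) := finj.countable
  obtain ⟨g, hg⟩ := exists_surjective_nat (ℕ → Bool)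
  obtain ⟨k, hk⟩ := hg (fun n => !(g n n))
  have := congrFun hk k
  revert this
  cases g k k <;> simp

/-- Countable neighbourhood bases in hereditarily Lindelöf compact Hausdorff spaces. -/
theorem exists_base {X : Type u} [TopologicalSpace X] [CompactSpace X] [T2Space X]
    [HereditarilyLindelofSpace X] (p : X) :
    ∃ N : ℕ → Set X, (∀ k, IsOpen (N k)) ∧ (∀ k, p ∈ N k) ∧
      ∀ O, IsOpen O → p ∈ O → ∃ k, N k ⊆ O := by
  classical
  have hL : IsLindelof ({p}ᶜ : Set X) := HereditarilyLindelofSpace.isLindelof _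
  have hsep : ∀ y : X, y ∈ ({p}ᶜ : Set X) → ∃ V : Set X, IsOpen V ∧ y ∈ V ∧ p ∉ closure V := by
    intro y hy
    obtain ⟨A, B, hA, hB, hyA, hpB, hAB⟩ := t2_separation (show y ≠ p from hy)
    refine ⟨A, hA, hyA, fun hp => ?_⟩
    obtain ⟨z, hz1, hz2⟩ := mem_closure_iff.mp hp B hB hpB
    exact (Set.disjoint_left.mp hAB) hz2 hz1
  choose! V hVo hyV hpV using hsep
  obtain ⟨t, htc, htsub, ht⟩ := hL.elim_nhds_subcover V
    (fun y hy => (hVo y hy).mem_nhds (hyV y hy))
  haveI : Countable t := htc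
  haveI : Countable (Finset t) := inferInstance
  obtain ⟨g, hg⟩ := exists_surjective_nat (Finset t)
  refine ⟨fun k => ⋂ y ∈ g k, (closure (V (y : X)))ᶜ, ?_, ?_, ?_⟩
  · intro k
    exact isOpen_biInter_finset fun y _ => isClosed_closure.isOpen_compl
  · intro k
    simp only [mem_iInter]
    intro y _
    exact hpV _ (htsub _ y.2)
  · intro O hO hpO
    have hcomp : IsCompact (Oᶜ) := hO.isClosed_compl.isCompact
    obtain ⟨s, hs⟩ := hcomp.elim_finite_subcover (fun y : t => V (y : X))
      (fun y => hVo _ (htsub _ y.2)) (by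
        intro z hz
        have hzp : z ∈ ({p}ᶜ : Set X) := by
          rintro rfl
          exact hz hpO
        obtain ⟨y, hy, hzy⟩ := mem_iUnion₂.mp (ht hzp)
        exact mem_iUnion.mpr ⟨⟨y, hy⟩, hzy⟩)
    obtain ⟨k, hk⟩ := hg s
    refine ⟨k, fun z hz => ?_⟩
    by_contra hzO
    obtain ⟨y, hy, hzy⟩ := mem_iUnion₂.mp (hs hzO)
    have := mem_iInter₂.mp hz y (by rw [hk]; exact hy)
    exact this (subset_closure hzy)

/-- Disjoint open sets meeting a set without isolated points and converging to one of its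
points. -/
theorem exists_seq {X : Type u} [TopologicalSpace X] [T2Space X] {S : Set X}
    {p : X} (hp : ∀ O, IsOpen O → p ∈ O → ∃ y ∈ O ∩ S, y ≠ p)
    {O : Set X} (hO : IsOpen O) (hpO : p ∈ O) {N : ℕ → Set X} (hN : ∀ k, IsOpen (N k))
    (hpN : ∀ k, p ∈ N k) :
    ∃ G : ℕ → Set X, (∀ k, IsOpen (G k)) ∧ (∀ k, (G k ∩ S).Nonempty) ∧ (∀ k, G k ⊆ O) ∧
      (∀ k, p ∉ G k) ∧ (∀ j k, j < k → Disjoint (G j) (G k)) ∧
      (∀ j k, j < k → G k ⊆ N j) := by
  classical
  have step : ∀ M : {M : Set X // IsOpen M ∧ p ∈ M ∧ M ⊆ O}, ∃ G B : Set X,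
      IsOpen G ∧ (G ∩ S).Nonempty ∧ G ⊆ M.1 ∧ IsOpen B ∧ p ∈ B ∧ Disjoint G B := by
    rintro ⟨M, hM, hpM, hMO⟩
    obtain ⟨y, hy, hyp⟩ := hp M hM hpM
    obtain ⟨A, B, hA, hB, hyA, hpB, hAB⟩ := t2_separation hyp
    exact ⟨M ∩ A, B, hM.inter hA, ⟨y, ⟨hy.1, hyA⟩, hy.2⟩, inter_subset_left, hB, hpB,
      hAB.mono_left inter_subset_right⟩
  choose G B hG hGS hGM hB hpB hGB using step
  let M : ℕ → {M : Set X // IsOpen M ∧ p ∈ M ∧ M ⊆ O} := fun n =>
    Nat.rec ⟨O, hO, hpO, subset_rfl⟩
      (fun n M => ⟨M.1 ∩ B M ∩ N n, (M.2.1.inter (hB M)).inter (hN n),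
        ⟨⟨M.2.2.1, hpB M⟩, hpN n⟩, fun z hz => M.2.2.2 hz.1.1⟩) n
  have hMs : ∀ n, (M (n+1)).1 = (M n).1 ∩ B (M n) ∩ N n := fun n => rfl
  have hmono : ∀ j k, j ≤ k → (M k).1 ⊆ (M j).1 := by
    intro j k hjk
    induction hjk with
    | refl => exact subset_rfl
    | step _ ih => rw [hMs]; exact fun z hz => ih hz.1.1
  refine ⟨fun k => G (M k), fun k => hG _, fun k => hGS _, fun k => (hGM _).trans (M k).2.2.2,
    fun k hpk => (Set.disjoint_left.mp (hGB (M k))) hpk (hpB _), fun j k hjk => ?_,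
    fun j k hjk => ?_⟩
  · refine (hGB (M j)).mono_right fun z hz => ?_
    have := hmono (j+1) k hjk (hGM _ hz)
    rw [hMs] at this
    exact this.1.2
  · intro z hz
    have := hmono (j+1) k hjk (hGM _ hz)
    rw [hMs] at this
    exact this.2

/-- Countable neighbourhood bases, as sequences of open sets. -/
theorem exists_base' {X : Type u} [TopologicalSpace X] [FirstCountableTopology X] (p : X) :
    ∃ N : ℕ → Set X, (∀ k, IsOpen (N k)) ∧ (∀ k, p ∈ N k) ∧
      ∀ O, IsOpen O → p ∈ O → ∃ k, N k ⊆ O := by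
  obtain ⟨B, hB⟩ := (𝓝 p).exists_antitone_basis
  refine ⟨fun k => interior (B k), fun k => isOpen_interior,
    fun k => mem_interior_iff_mem_nhds.mpr (hB.mem k), fun O hO hpO => ?_⟩
  obtain ⟨k, hk⟩ := hB.mem_iff.mp (hO.mem_nhds hpO)
  exact ⟨k, interior_subset.trans hk⟩

/-- Hereditarily Lindelöf compact Hausdorff spaces are first countable. -/
theorem firstCountable {X : Type u} [TopologicalSpace X] [CompactSpace X] [T2Space X]
    [HereditarilyLindelofSpace X] : FirstCountableTopology X := by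
  refine ⟨fun p => ?_⟩
  obtain ⟨N, hN, hpN, hbase⟩ := exists_base p
  have hb : (𝓝 p).HasBasis (fun _ : ℕ => True) N := by
    refine ⟨fun t => ⟨fun ht => ?_, ?_⟩⟩
    · obtain ⟨O, hOt, hO, hpO⟩ := mem_nhds_iff.mp ht
      obtain ⟨k, hk⟩ := hbase O hO hpO
      exact ⟨k, trivial, hk.trans hOt⟩
    · rintro ⟨k, _, hk⟩
      exact Filter.mem_of_superset ((hN k).mem_nhds (hpN k)) hk
  exact hb.isCountablyGenerated

/-- The embedding of a sequence of compact spaces, together with a limit point. -/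
theorem exists_embed {X : Type u} [TopologicalSpace X] [CompactSpace X] [T2Space X]
    [FirstCountableTopology X] {S : Set X}
    (hS : ∀ p ∈ S, ∀ O, IsOpen O → p ∈ O → ∃ y ∈ O ∩ S, y ≠ p)
    {U : ℕ → Set X} (hU : ∀ k, IsCompact (U k))
    (hE : ∀ k, ∀ O, IsOpen O → (O ∩ S).Nonempty → ∃ e : U k → X, Continuous e ∧
      Function.Injective e ∧ range e ⊆ O)
    {O : Set X} (hO : IsOpen O) (hOS : (O ∩ S).Nonempty) :
    ∃ e : OnePoint (Σ k, U k) → X, Continuous e ∧ Function.Injective e ∧ range e ⊆ O := by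
  classical
  obtain ⟨p, hpO, hpS⟩ := hOS
  obtain ⟨N, hN, hpN, hbase⟩ := exists_base' p
  obtain ⟨G, hG, hGS, hGO, hpG, hGd, hGN⟩ := exists_seq (hS p hpS) hO hpO hN hpN
  choose e he hei heG using fun k => hE k (G k) (hG k) (hGS k)
  have heG' : ∀ k u, e k u ∈ G k := fun k u => heG k (mem_range_self u)
  let f : OnePoint (Σ k, U k) → X := fun x => Option.elim x p (fun y => e y.1 y.2)
  have hf0 : f OnePoint.infty = p := rfl
  have hf1 : ∀ y : (Σ k, U k), f (y : OnePoint (Σ k, U k)) = e y.1 y.2 := fun y => rfl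
  refine ⟨f, ?_, ?_, ?_⟩
  · rw [OnePoint.continuous_iff]
    constructor
    · rw [hf0]
      intro B hB
      obtain ⟨B', hB'B, hB'o, hpB'⟩ := mem_nhds_iff.mp hB
      obtain ⟨j, hj⟩ := hbase B' hB'o hpB'
      rw [Filter.mem_map, Filter.hasBasis_coclosedCompact.mem_iff]
      refine ⟨⋃ k ∈ Finset.range (j+1), range (Sigma.mk (β := fun k => U k) k),
        ⟨?_, ?_⟩, ?_⟩
      · refine isClosed_biUnion_finset fun k _ => isClosed_range_sigmaMk
      · refine Finset.isCompact_biUnion _ fun k _ => ?_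
        haveI : CompactSpace (U k) := isCompact_iff_compactSpace.mp (hU k)
        exact isCompact_range continuous_sigmaMk
      · rintro ⟨k, u⟩ hk
        have hjk : j < k := by
          by_contra hcon
          exact hk (mem_biUnion (show k ∈ (Finset.range (j+1) : Set ℕ) by
            simp only [Finset.coe_range, mem_Iio]; omega) (mem_range_self u))
        exact hB'B (hj (hGN j k hjk (heG' k u)))
    · exact continuous_sigma fun k => he k
  · intro x y hxy
    induction x using OnePoint.rec with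
    | infty =>
      induction y using OnePoint.rec with
      | infty => rfl
      | coe y =>
        rw [hf0, hf1] at hxy
        exact absurd (heG' y.1 y.2) (hxy ▸ hpG y.1)
    | coe x =>
      induction y using OnePoint.rec with
      | infty =>
        rw [hf0, hf1] at hxy
        exact absurd (heG' x.1 x.2) (hxy ▸ hpG x.1)
      | coe y =>
        rw [hf1, hf1] at hxy
        obtain ⟨k, u⟩ := x
        obtain ⟨l, v⟩ := y
        have hkl : k = l := by
          rcases lt_trichotomy k l with h | h | h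
          · exact absurd (heG' l v) (fun h' =>
              (Set.disjoint_left.mp (hGd k l h)) (heG' k u) (by rw [show e k u = e l v from hxy]; exact h'))
          · exact h
          · exact absurd (heG' k u) (fun h' =>
              (Set.disjoint_left.mp (hGd l k h)) (heG' l v) (by rw [← show e k u = e l v from hxy]; exact h'))
        subst hkl
        have := hei k hxy
        subst this
        rfl
  · rintro _ ⟨x, rfl⟩
    induction x using OnePoint.rec with
    | infty => exact hpO
    | coe x => rw [hf1]; exact hGO _ (heG' x.1 x.2)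

/-- A hereditarily Lindelöf compact Hausdorff space has only countably many countable clopen
subsets. -/
theorem countable_clopens {X : Type u} [TopologicalSpace X] [CompactSpace X] [T2Space X]
    [HereditarilyLindelofSpace X] : {U : Set X | IsClopen U ∧ U.Countable}.Countable := by
  classical
  have hL : IsLindelof (⋃₀ {V : Set X | IsOpen V ∧ V.Countable}) :=
    HereditarilyLindelofSpace.isLindelof _
  obtain ⟨t, htc, ht⟩ := hL.elim_countable_subcover
    (fun V : {V : Set X // IsOpen V ∧ V.Countable} => (V : Set X)) (fun V => V.2.1) (by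
      rintro x ⟨V, hV, hx⟩
      exact mem_iUnion.mpr ⟨⟨V, hV⟩, hx⟩)
  have hcount : (⋃₀ {V : Set X | IsOpen V ∧ V.Countable}).Countable :=
    (htc.biUnion fun V _ => V.2.2).mono ht
  choose N hN hpN hbase using fun p : X => exists_base p
  have hB : (⋃ p ∈ ⋃₀ {V : Set X | IsOpen V ∧ V.Countable}, range (N p)).Countable :=
    hcount.biUnion fun p _ => countable_range _
  have hfin := Set.countable_setOf_finite_subset hB
  refine (hfin.image sUnion).mono ?_
  rintro U ⟨hU, hUc⟩
  have hUsub : U ⊆ ⋃₀ {V : Set X | IsOpen V ∧ V.Countable} :=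
    subset_sUnion_of_mem ⟨hU.isOpen, hUc⟩
  obtain ⟨s, hs⟩ := hU.isClosed.isCompact.elim_finite_subcover
    (fun W : {W : Set X // W ∈ (⋃ p ∈ ⋃₀ {V : Set X | IsOpen V ∧ V.Countable}, range (N p)) ∧
      W ⊆ U} => (W : Set X)) (by
      rintro ⟨W, hW, _⟩
      obtain ⟨p, _, k, rfl⟩ := mem_iUnion₂.mp hW
      exact hN p k) (by
      intro x hx
      obtain ⟨k, hk⟩ := hbase x U hU.isOpen hx
      exact mem_iUnion.mpr ⟨⟨N x k, mem_iUnion₂.mpr ⟨x, hUsub hx, mem_range_self k⟩, hk⟩,
        hpN x k⟩)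
  refine ⟨(fun W : {W : Set X // W ∈ (⋃ p ∈ ⋃₀ {V : Set X | IsOpen V ∧ V.Countable},
    range (N p)) ∧ W ⊆ U} => (W : Set X)) '' s, ⟨s.finite_toSet.image _, ?_⟩, ?_⟩
  · rintro _ ⟨W, _, rfl⟩
    exact W.2.1
  · apply Subset.antisymm
    · rintro x ⟨_, ⟨W, _, rfl⟩, hx⟩
      exact W.2.2 hx
    · intro x hx
      obtain ⟨W, hW, hxW⟩ := mem_iUnion₂.mp (hs hx)
      exact ⟨W, ⟨W, hW, rfl⟩, hxW⟩

/-- First countable c.o. compact spaces with only countably many types of countable clopen
subsets are scattered. -/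
theorem scattered_of_types {X : Type u} [TopologicalSpace X] [CompactSpace X] [T2Space X]
    [FirstCountableTopology X]
    (hco : ∀ F : Set X, IsClosed F → ∃ U : Set X, IsClopen U ∧ Nonempty (F ≃ₜ U))
    (r : ℕ → Set X)
    (hr : ∀ U : Set X, IsClopen U → U.Countable → ∃ n, Nonempty (U ≃ₜ r n)) :
    ∀ S : Set X, S.Nonempty → ∃ x ∈ S, ∃ V : Set X, IsOpen V ∧ V ∩ S = {x} := by
  classical
  intro S hSne
  by_contra hno
  have hS : ∀ p ∈ S, ∀ O, IsOpen O → p ∈ O → ∃ y ∈ O ∩ S, y ≠ p := by
    intro p hp O hO hpO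
    by_contra hcon
    refine hno ⟨p, hp, O, hO, Subset.antisymm (fun y hy => ?_) ?_⟩
    · by_contra hyp
      exact hcon ⟨y, hy, hyp⟩
    · rintro y rfl
      exact ⟨hpO, hp⟩
  let E : Set X → Prop := fun U => ∀ O, IsOpen O → (O ∩ S).Nonempty → ∃ e : U → X,
    Continuous e ∧ Function.Injective e ∧ range e ⊆ O
  have key : ∀ W : Set X, IsClopen W → W.Countable → E W →
      ∃ n, (IsCompact (r n) ∧ (r n).Countable ∧ E (r n)) ∧ Nonempty (W ≃ₜ r n) := by
    intro W hW hWc hWE
    obtain ⟨n, ⟨h⟩⟩ := hr W hW hWc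
    haveI : CompactSpace W := isCompact_iff_compactSpace.mp hW.isClosed.isCompact
    haveI : Countable W := hWc
    haveI : CompactSpace (r n) := h.compactSpace
    refine ⟨n, ⟨isCompact_iff_compactSpace.mpr inferInstance,
      Countable.of_equiv _ h.toEquiv, ?_⟩, ⟨h⟩⟩
    intro O hO hOS
    obtain ⟨e, he, hei, her⟩ := hWE O hO hOS
    exact ⟨e ∘ h.symm, he.comp h.symm.continuous, hei.comp h.symm.injective,
      (range_comp_subset_range _ _).trans her⟩
  have hne : {n : ℕ | IsCompact (r n) ∧ (r n).Countable ∧ E (r n)}.Nonempty := by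
    obtain ⟨x, hx⟩ := hSne
    obtain ⟨U, hU, ⟨h⟩⟩ := hco {x} isClosed_singleton
    haveI : Subsingleton U := h.symm.toEquiv.subsingleton
    obtain ⟨n, hn, -⟩ := key U hU ((Set.subsingleton_coe U).mp inferInstance).countable (by
      intro O hO hOS
      obtain ⟨q, hqO, _⟩ := hOS
      refine ⟨fun _ => q, continuous_const, fun a b _ => Subsingleton.elim a b, ?_⟩
      rintro _ ⟨_, rfl⟩
      exact hqO)
    exact ⟨n, hn⟩
  obtain ⟨g, hg⟩ := (Set.to_countable
    {n : ℕ | IsCompact (r n) ∧ (r n).Countable ∧ E (r n)}).exists_eq_range hne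
  have hgm : ∀ n, IsCompact (r (g n)) ∧ (r (g n)).Countable ∧ E (r (g n)) := fun n => by
    have : g n ∈ {n : ℕ | IsCompact (r n) ∧ (r n).Countable ∧ E (r n)} :=
      hg ▸ mem_range_self n
    exact this
  let U : ℕ → Set X := fun k => r (g (Nat.unpair k).1)
  have hUc : ∀ k, IsCompact (U k) := fun k => (hgm _).1
  have hUE : ∀ k, E (U k) := fun k => (hgm _).2.2
  haveI hUct : ∀ k, Countable (U k) := fun k => (hgm _).2.1
  haveI hUcs : ∀ k, CompactSpace (U k) := fun k => isCompact_iff_compactSpace.mp (hUc k)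
  haveI : WeaklyLocallyCompactSpace (Σ k, U k) := by
    refine ⟨?_⟩
    rintro ⟨k, u⟩
    exact ⟨range (Sigma.mk (β := fun k => U k) k), isCompact_range continuous_sigmaMk,
      isOpen_range_sigmaMk.mem_nhds (mem_range_self u)⟩
  haveI : T2Space (OnePoint (Σ k, U k)) := inferInstance
  haveI : Countable (OnePoint (Σ k, U k)) := inferInstanceAs (Countable (Option (Σ k, U k)))
  obtain ⟨e, he, hei, -⟩ := exists_embed hS hUc hUE isOpen_univ
    (by obtain ⟨x, hx⟩ := hSne; exact ⟨x, mem_univ _, hx⟩)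
  have hemb := he.isClosedEmbedding hei
  obtain ⟨W, hW, ⟨h⟩⟩ := hco (range e) hemb.isClosed_range
  let H : OnePoint (Σ k, U k) ≃ₜ W := hemb.toIsEmbedding.toHomeomorph.trans h
  obtain ⟨n', hn', ⟨h'⟩⟩ := key W hW (Countable.of_equiv _ H.toEquiv) (by
    intro O hO hOS
    obtain ⟨e', he', hei', her'⟩ := exists_embed hS hUc hUE hO hOS
    exact ⟨e' ∘ H.symm, he'.comp H.symm.continuous, hei'.comp H.symm.injective,
      (range_comp_subset_range _ _).trans her'⟩)
  have hWm : n' ∈ {n : ℕ | IsCompact (r n) ∧ (r n).Countable ∧ E (r n)} := hn'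
  rw [hg] at hWm
  obtain ⟨n, rfl⟩ := hWm
  let K : OnePoint (Σ k, U k) ≃ₜ r (g n) := H.trans h'
  have hUn : ∀ m, U (Nat.pair n m) = r (g n) := fun m => by
    show r (g (Nat.unpair (Nat.pair n m)).1) = r (g n)
    rw [Nat.unpair_pair]
  let a : ℕ → OnePoint (Σ k, U k) → OnePoint (Σ k, U k) := fun m x =>
    ((⟨Nat.pair n m, ⟨(K x : X), by rw [hUn m]; exact (K x).2⟩⟩ : Σ k, U k) :
      OnePoint (Σ k, U k))
  have ha : ∀ m, Continuous (a m) := fun m =>
    OnePoint.continuous_coe.comp (continuous_sigmaMk.comp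
      (Continuous.subtype_mk (continuous_subtype_val.comp K.continuous) _))
  have hai : ∀ m, Function.Injective (a m) := by
    intro m x y hxy
    have h1 := OnePoint.coe_injective hxy
    have h2 := sigma_mk_injective h1
    have h3 := Subtype.mk.inj h2
    exact K.injective (Subtype.ext h3)
  refine no_two_copies (a 0) (a 1) (ha 0) (ha 1) (hai 0) (hai 1) ?_
  intro x y hxy
  have h1 := OnePoint.coe_injective hxy
  have h2 : Nat.pair n 0 = Nat.pair n 1 := congrArg Sigma.fst h1
  rw [Nat.pair_eq_pair] at h2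
  exact absurd h2.2 (by norm_num)

/-- c.o. hereditarily Lindelöf compact spaces are scattered. -/
theorem scattered {X : Type u} [TopologicalSpace X] [CompactSpace X] [T2Space X]
    [HereditarilyLindelofSpace X]
    (hco : ∀ F : Set X, IsClosed F → ∃ U : Set X, IsClopen U ∧ Nonempty (F ≃ₜ U)) :
    ∀ S : Set X, S.Nonempty → ∃ x ∈ S, ∃ V : Set X, IsOpen V ∧ V ∩ S = {x} := by
  haveI := firstCountable (X := X)
  obtain ⟨r, hr⟩ := (countable_clopens (X := X)).exists_eq_range
    ⟨∅, isClopen_empty, countable_empty⟩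
  refine scattered_of_types hco r fun U hU hUc => ?_
  have : U ∈ range r := hr ▸ (⟨hU, hUc⟩ : U ∈ {U : Set X | IsClopen U ∧ U.Countable})
  obtain ⟨n, hn⟩ := this
  exact ⟨n, ⟨Homeomorph.setCongr hn.symm⟩⟩

/-- c.o. hereditarily Lindelöf compact spaces are countable. -/
theorem countable {X : Type u} [TopologicalSpace X] [CompactSpace X] [T2Space X]
    [HereditarilyLindelofSpace X]
    (hco : ∀ F : Set X, IsClosed F → ∃ U : Set X, IsClopen U ∧ Nonempty (F ≃ₜ U)) :
    Countable X := by
  classical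
  have hL : IsLindelof (⋃₀ {V : Set X | IsOpen V ∧ V.Countable}) :=
    HereditarilyLindelofSpace.isLindelof _
  obtain ⟨t, htc, ht⟩ := hL.elim_countable_subcover
    (fun V : {V : Set X // IsOpen V ∧ V.Countable} => (V : Set X)) (fun V => V.2.1) (by
      rintro x ⟨V, hV, hx⟩
      exact mem_iUnion.mpr ⟨⟨V, hV⟩, hx⟩)
  have hcount : (⋃₀ {V : Set X | IsOpen V ∧ V.Countable}).Countable :=
    (htc.biUnion fun V _ => V.2.2).mono ht
  by_contra hX
  have hne : ((⋃₀ {V : Set X | IsOpen V ∧ V.Countable})ᶜ).Nonempty := by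
    by_contra hemp
    rw [not_nonempty_iff_eq_empty, compl_empty_iff] at hemp
    rw [hemp] at hcount
    exact hX (countable_univ_iff.mp hcount)
  obtain ⟨x, hx, V, hV, hVx⟩ := scattered hco _ hne
  refine hx ⟨V, ⟨hV, ?_⟩, ?_⟩
  · refine (hcount.union (countable_singleton x)).mono fun y hy => ?_
    by_cases hy' : y ∈ ⋃₀ {V : Set X | IsOpen V ∧ V.Countable}
    · exact Or.inl hy'
    · exact Or.inr (hVx ▸ ⟨hy, hy'⟩ : y ∈ ({x} : Set X))
  · have : x ∈ V ∩ (⋃₀ {V : Set X | IsOpen V ∧ V.Countable})ᶜ := by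
      rw [hVx]; exact mem_singleton x
    exact this.1

end Pool.U19.CoHL
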